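import Pool.Agent.H84.FP.Whole

/-!
# Semisimplicity of Frobenius on the cohomology of fibre products of elliptic surfaces

Let `κ` be a finite field with `q` elements, and let `S₁`, `S₂` be semistable elliptic surfaces over
the projective line over `κ`, both with a section of the same prime order `ℓ` different from the
characteristic, in the normal form of Tate (`HasSection`, see MP_1fe969_ag TorsionSections):

* `ℓ = 2`: `y² = x³ + u x² + v x`; `ℓ = 3`: `y² + u x y + v y = x³`;
* `ℓ = 5`: `y² + (v - u) x y - u v² y = x³ - u v x²`;
* `ℓ = 7`: `y² + (v² + u v - u²) x y + u² v³ (v - u) y = x³ + u² v (v - u) x²`,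

where `u`, `v` are forms in two variables without common zeros. The fibre product of `S₁` and `S₂`
over the projective line has ordinary double points over the points where both fibres are
singular; let `X` be its blow up in these points, a smooth projective threefold. For rational `S₁` and
`S₂` without common bad points these are the Calabi-Yau threefolds of Schoen; for `S₁ = S₂` it is
the compactification of Deligne of the Kuga-Sato threefold.

We suppose that either the generic fibres of `S₁` and `S₂` are not isogenous over the algebraic closure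
of `κ`, or `S₁ = S₂`. By the theorem of decomposition the cohomology of `X` is (`IsThreefold`)

* `H² = (classes of divisors) ⊕ H¹(P¹, V₁) ⊕ H¹(P¹, V₂)`, where `V_i` is the extension `j_*` of the first
  cohomology of the fibres of `S_i`; `H⁴` is its dual; `H¹ = H⁵ = 0`;
* `H³ = H¹(P¹, j_* (V₁ ⊗ V₂)) ⊕ (classes from the first cohomology of some smooth fibres)`, and
  `H³ = H¹(P¹, j_* Sym² V)` if `S₁ = S₂ = S`.

**Theorem.** Let `d` be the family of the degrees of the closed points of the projective line with a
singular fibre of `S₁` or `S₂`, and let `k = 3`, or `k = 2` if `S₁ = S₂`.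

(1) Let `R` be the polynomial
`∏_{n ∈ d} (1 - (q T)ⁿ) (1 - (q² T)ⁿ) / ((1 - T) (1 - q T)ᵏ (1 - q² T)ᵏ (1 - q³ T))` modulo `ℓ`. If it is
squarefree, then the eigenvalues of the Frobenius on `H¹(P¹, j_* (V₁ ⊗ V₂))` or `H¹(P¹, j_* Sym² V)` are
pairwise different.

(2) Suppose that `ℓ` is odd and

* `q ≡ -1` modulo `ℓ`, and `d` consists of `k + 1` or `k + 2` odd, pairwise coprime numbers, prime to
  `ℓ`, or
* `q² ≡ -1` modulo `ℓ`, and `d` consists of `k` or `k + 1` numbers, one or two of them twice odd numbers
  and the other ones odd, with odd parts that are pairwise coprime and prime to `ℓ`,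

and that `S₁` and `S₂` satisfy the conditions of MP_1fe969_ag TorsionSections (for each of the two
types of nodes the degrees have similar properties). Then the Frobenius is semisimple on `Hʳ(X)` for
all `r`.

(3) For example, let `q ≡ ± 2` modulo `5`, `m` odd and prime to `5` and `c ∈ κ` such that the polynomial
`c² t²ᵐ - 11 c tᵐ - 1` is irreducible (`q = 2`, `c = 1` and `m = 3ᵏ`, or `q = 7`, `c = 2` and `m = 3ᵏ`), and
let `S` be the surface `y² + (1 - c tᵐ) x y - c tᵐ y = x³ - c tᵐ x²`, with a section of order five. Then
the Frobenius is semisimple on the cohomology of the threefold `X` for `S₁ = S₂ = S`, for which the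
dimension of `H³` is `4 m - 2`. The same is true for `S₁ = S` and another surface `S₂` of this family, for
`m'` and `c'`, if `m` and `m'` are coprime and the two polynomials are different; then the dimension of
`H¹(P¹, j_* (V₁ ⊗ V₂))` is `4 (m + m') - 4`.

An example for `ℓ = 3`, `q = 2`, `S₁ = S₂`: the surface `y² + (t⁴ + t) x y + v y = x³` with
`v = t¹¹ + t⁸ + t⁵ + t² + 1`. Here `v` is irreducible and vanishes at infinity, and `u³ - 27 v` is the
product of the irreducible polynomials `t⁵ + t³ + 1` and `t⁷ + t⁶ + t⁵ + t² + 1`, so `d` is
`1, 11, 5, 7`, and the dimension of `H³` is `42`.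

The proof. The fibres have a point of order `ℓ`, so the semisimplification of `V_i` modulo `ℓ` is the sum
of the trivial and the cyclotomic character. It is remarkable that at all nodes the contribution to
the traces of `V₁ ⊗ V₂` and of `Sym² V` modulo `ℓ` is the same: if the section does not meet the singular
point, then `ℓ` divides `|L| ± 1`, so that `|L|² ≡ 1`, which follows from the number of points of a nodal
cubic curve. Therefore the traces of the powers of the Frobenius are the power sums that belong to
`R`. As `R` has the right degree and no multiple roots, the reductions of the eigenvalues modulo `ℓ`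
are its inverse roots, and the eigenvalues are pairwise different. For third and higher symmetric
powers `R` always has multiple roots.
-/

set_option autoImplicit false

namespace Pool.Agent.Results.MP_93fb11_ag.FibreProducts

open Polynomial Module Pool.Agent.H84.FP
open Pool.Agent.R942.ES (Surface HasSection)

/-- **Semisimplicity of Frobenius on the cohomology of fibre products of elliptic surfaces.** -/
theorem result (κ : Type) [Field κ] [Fintype κ] (E : Type) [Field E] [CharZero E]
    [IsAlgClosed E] :
    (∀ (S₁ S₂ : Surface κ) (d : Multiset ℕ), HasSection S₁ → HasSection S₂ → S₁.ℓ = S₂.ℓ →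
      IsDegrees S₁ S₂ d →
      (∀ (W : Type) [AddCommGroup W] [Module E W] [FiniteDimensional E W] (Φ : Module.End E W)
        (R : (ZMod S₁.ℓ)[X]), IsTensor S₁ S₂ Φ → IsReduction (Fintype.card κ) S₁.ℓ 3 d R →
        Squarefree R → Φ.charpoly.Separable) ∧
      (Pool.Agent.R942.ES.IsAdmissible (Fintype.card κ) S₁.ℓ S₁.a S₁.b →
        Pool.Agent.R942.ES.IsAdmissible (Fintype.card κ) S₂.ℓ S₂.a S₂.b →
        IsAdmissible (Fintype.card κ) S₁.ℓ 3 d → ProductSemisimple E S₁ S₂)) ∧
    (∀ S : Surface κ, HasSection S →
      (∀ (W : Type) [AddCommGroup W] [Module E W] [FiniteDimensional E W] (Φ : Module.End E W)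
        (R : (ZMod S.ℓ)[X]), IsSymSquare S Φ →
        IsReduction (Fintype.card κ) S.ℓ 2 (S.a + S.b) R → Squarefree R →
        Φ.charpoly.Separable) ∧
      (Pool.Agent.R942.ES.IsAdmissible (Fintype.card κ) S.ℓ S.a S.b →
        IsAdmissible (Fintype.card κ) S.ℓ 2 (S.a + S.b) → SquareSemisimple E S)) ∧
    (5 ∣ Fintype.card κ ^ 2 + 1 → ∀ (m : ℕ) (c : κ), Odd m → ¬ 5 ∣ m → Irreducible (bad m c) →
      SquareSemisimple E (fam m c) ∧
      ∀ (m' : ℕ) (c' : κ), Odd m' → ¬ 5 ∣ m' → Irreducible (bad m' c') → Nat.Coprime m m' →
        bad m c ≠ bad m' c' → ProductSemisimple E (fam m c) (fam m' c')) := by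
  refine ⟨?_, ?_, ?_⟩
  · intro S₁ S₂ d h₁ h₂ hℓ hd
    exact ⟨fun W _ _ _ Φ R hΦ hR hsq => tensor_separable h₁ h₂ hℓ hd hΦ hR hsq,
      fun ha₁ ha₂ ha => product_semisimple h₁ h₂ hℓ hd ha₁ ha₂ ha⟩
  · intro S h
    exact ⟨fun W _ _ _ Φ R hΦ hR hsq => square_separable h (isDegrees_self h) hΦ hR hsq,
      fun ha₁ ha => square_semisimple h ha₁ ha⟩
  · intro hq m c hm h5 hirr
    refine ⟨square_semisimple (fam_section hq hirr) (fam_admissible hq hirr hm h5)
      (fam_square hq hirr hm h5), ?_⟩
    intro m' c' hm' h5' hirr' hco hne
    exact product_semisimple (fam_section hq hirr) (fam_section hq hirr') rfl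
      (fam_pair_degrees hq hirr hirr' hm.pos hm'.pos hne) (fam_admissible hq hirr hm h5)
      (fam_admissible hq hirr' hm' h5') (fam_tensor hq hm h5 hm' h5' hco)

end Pool.Agent.Results.MP_93fb11_ag.FibreProducts
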